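import Mathlib
import Pool.Agent.W5h23.G.Benf

set_option autoImplicit false

/-!
# Benford's law for the cycles of the 3x+1 map on the integers

The elements of a cycle all of whose elements have absolute value at least `N` are distributed in base
`3` according to Benford's law, up to a relative error `O(N ^ (-1/14))`: the fractional parts of
`log_3 |x|` are equidistributed modulo `1`. The same holds for all stretches of consecutive elements.

Proof: along `q` consecutive elements the numbers `log_3 |T ^ t x| + t log_3 2` are constant modulo `1`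
up to `O(q / N)`; if `q` is the denominator of a convergent of `log_3 2` the multiples of `log_3 2`
are well distributed, and the irrationality measure of `log_3 2` (starting file `H319R2.Measure`)
provides suitable `q`. The average over all starting points in the cycle gives the result.
-/

namespace Pool.Agent.Results.MP_edb5be_nt.BenfordLaw

/-- The 3x+1 map on the integers. -/
def T (x : ℤ) : ℤ := if x % 2 = 0 then x / 2 else (3 * x + 1) / 2

/-- `Z` is a cycle of `T`. -/
def IsCycle (Z : Finset ℤ) : Prop :=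
  ∃ (x : ℤ) (p : ℕ), 1 ≤ p ∧ T^[p] x = x ∧ Z = (Finset.range p).image fun i => T^[i] x

/-- There is `C` such that for every cycle `Z` of the 3x+1 map on the integers all of whose elements
have absolute value at least `N ≥ 1`, and all `0 ≤ a ≤ b ≤ 1`:
the number of `x ∈ Z` such that the fractional part of `log_3 |x|` is in `[a, b)` differs from
`(b - a) |Z|` by at most `C |Z| N ^ (-1/14)`; and for every `x ∈ Z` and every `L` the number of those
among the consecutive elements `x, T x, ..., T ^ (L-1) x` which have this property differs from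
`(b - a) L` by at most `C L ^ (13/14) + C L N ^ (-1/14)`. -/
theorem result : ∃ C : ℝ, ∀ Z : Finset ℤ, IsCycle Z → ∀ N : ℝ, 1 ≤ N → (∀ x ∈ Z, N ≤ |(x : ℝ)|) →
    ∀ a b : ℝ, 0 ≤ a → a ≤ b → b ≤ 1 →
    |((Z.filter fun x : ℤ => a ≤ Int.fract (Real.logb 3 |(x : ℝ)|) ∧
        Int.fract (Real.logb 3 |(x : ℝ)|) < b).card : ℝ) - (b - a) * Z.card| ≤
      C * Z.card * N ^ (-(1 / 14 : ℝ)) ∧
    ∀ x ∈ Z, ∀ L : ℕ,
      |(((Finset.range L).filter fun i => a ≤ Int.fract (Real.logb 3 |((T^[i] x : ℤ) : ℝ)|) ∧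
          Int.fract (Real.logb 3 |((T^[i] x : ℤ) : ℝ)|) < b).card : ℝ) - (b - a) * L| ≤
        C * (L : ℝ) ^ (13 / 14 : ℝ) + C * L * N ^ (-(1 / 14 : ℝ)) := by
  obtain ⟨C1, hC10, h1⟩ := Pool.Agent.W5h23.G.benford_cycles3
  obtain ⟨C2, hC20, h2⟩ := Pool.Agent.W5h23.G.benford_segments3
  refine ⟨C1 + C2, ?_⟩
  intro Z hZ N hN hmin a b ha hab hb
  have hN0 : 0 < N := by linarith
  have hN1 : 0 < N ^ (-(1 / 14 : ℝ)) := by positivity
  have e1 : (|((1 : ℤ) : ℝ)| / N) ^ (1 / 14 : ℝ) = N ^ (-(1 / 14 : ℝ)) := by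
    rw [Int.cast_one, abs_one, one_div, Real.inv_rpow hN0.le, Real.rpow_neg hN0.le]
  have e3 : ((3 : ℤ) : ℝ) = 3 := by norm_num
  have hTT : T = Pool.Agent.TH926.OSG.T 3 1 := rfl
  have hZ' : Pool.Agent.TH926.OSG.IsCycle 3 1 Z := hZ
  have hb1 : |((1 : ℤ) : ℝ)| ≤ N := by simpa using hN
  refine ⟨?_, ?_⟩
  · have h := h1 1 (by norm_num) Z hZ' N hb1 hmin a b ha hab hb
    rw [e1] at h
    have e : (Z.filter fun x : ℤ => a ≤ Int.fract (Real.logb 3 |(x : ℝ)|) ∧
        Int.fract (Real.logb 3 |(x : ℝ)|) < b) =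
        (Z.filter fun x => Pool.Agent.W5h23.G.Man 3 a b x) := by
      apply Finset.filter_congr
      intro x _
      unfold Pool.Agent.W5h23.G.Man
      rw [e3]
    rw [e]
    refine h.trans ?_
    have : 0 ≤ C2 * (Z.card * N ^ (-(1 / 14 : ℝ))) := by positivity
    nlinarith
  · intro x hx L
    have h := h2 1 (by norm_num) N hb1 L x (fun j _ => hmin _ (hZ'.closed hx j)) a b ha hab hb
    rw [e1] at h
    have e : ((Finset.range L).filter fun i => a ≤ Int.fract (Real.logb 3 |((T^[i] x : ℤ) : ℝ)|) ∧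
          Int.fract (Real.logb 3 |((T^[i] x : ℤ) : ℝ)|) < b) =
        ((Finset.range L).filter fun i =>
          Pool.Agent.W5h23.G.Man 3 a b ((Pool.Agent.TH926.OSG.T 3 1)^[i] x)) := by
      apply Finset.filter_congr
      intro i _
      unfold Pool.Agent.W5h23.G.Man
      rw [e3, hTT]
    rw [e]
    refine h.trans ?_
    have f1 : 0 ≤ C1 * (L : ℝ) ^ (13 / 14 : ℝ) := by positivity
    have f2 : 0 ≤ C1 * (L * N ^ (-(1 / 14 : ℝ))) := by positivity
    nlinarith

end Pool.Agent.Results.MP_edb5be_nt.BenfordLaw
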