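import Mathlib
import Pool.Agent.W5h23.Circ

set_option autoImplicit false

/-!
# The number of circuits of a cycle of the 3x+1 map and the size of its elements

A circuit starting from the local minimum `y` has at most about `2.6 log_2 y` steps, so a cycle with `p`
elements of absolute value at most `X` has at least `c p / log X` circuits. This is improved by the
factor `log p / log (2 + log X / log p)`, and it is sufficient that a positive proportion of the elements
is bounded by `X`.

Proof: the parity words of length `log_2 (2 X)` of the elements of absolute value at most `X` are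
different, and there are few words with few changes of parity.
-/

namespace Pool.Agent.Results.MP_edb5be_nt.CircuitsAndSize

/-- The 3x+1 map on the integers. -/
def T (x : ℤ) : ℤ := if x % 2 = 0 then x / 2 else (3 * x + 1) / 2

/-- `Z` is a cycle of `T`. -/
def IsCycle (Z : Finset ℤ) : Prop :=
  ∃ (x : ℤ) (p : ℕ), 1 ≤ p ∧ T^[p] x = x ∧ Z = (Finset.range p).image fun i => T^[i] x

/-- The number of circuits of the cycle `Z`: the number of even elements whose image is odd. -/
def circuits (Z : Finset ℤ) : ℕ := (Z.filter fun x => x % 2 = 0 ∧ T x % 2 = 1).card

/-- For every `δ > 0` there is `κ > 0` such that for every cycle `Z` of the 3x+1 map on the integers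
and every `X ≥ 2`: if at least `δ |Z|` elements of `Z` have absolute value at most `X`, then the number
`c` of circuits of `Z` satisfies `κ |Z| log |Z| ≤ c log X log (2 + log X / log |Z|)`. -/
theorem result (δ : ℝ) (hδ : 0 < δ) : ∃ κ : ℝ, 0 < κ ∧ ∀ Z : Finset ℤ, IsCycle Z →
    ∀ X : ℝ, 2 ≤ X → δ * Z.card ≤ (Z.filter fun x : ℤ => |(x : ℝ)| ≤ X).card →
    κ * (Z.card * Real.log Z.card) ≤
      circuits Z * (Real.log X * Real.log (2 + Real.log X / Real.log Z.card)) :=
  Pool.Agent.W5h23.circuits_size δ hδ

end Pool.Agent.Results.MP_edb5be_nt.CircuitsAndSize
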