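import Mathlib
import Pool.Agent.W5h23.Entropy3

set_option autoImplicit false

/-!
# Cycles of the 3x+1 map with positive entropy

If a positive proportion of the elements of a cycle `Z` with least absolute value `m` is bounded by a
fixed power of `|Z| m`, then (with finitely many exceptions) the parity words of `Z` have positive
entropy on all scales. So in the cycles whose parities can be predicted, on some scale, from a small set
of words with `o(|Z|)` errors, almost all elements exceed every fixed power of the least element (and of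
`|Z|`).

Proof: the parity words of length `log_2 (2 X)` of the elements of absolute value at most `X` are
different. If all but few of the words of length `n` belonged to a set of `2 ^ (h n)` words, a count of
the concatenations with few exceptional blocks would show that there are too few long words, since
`m ≤ D |Z| ^ 14` by the linear form in `log 2` and `log 3`.
-/

namespace Pool.Agent.Results.MP_edb5be_nt.PositiveEntropy

/-- The 3x+1 map on the integers. -/
def T (x : ℤ) : ℤ := if x % 2 = 0 then x / 2 else (3 * x + 1) / 2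

/-- `Z` is a cycle of `T`. -/
def IsCycle (Z : Finset ℤ) : Prop :=
  ∃ (x : ℤ) (p : ℕ), 1 ≤ p ∧ T^[p] x = x ∧ Z = (Finset.range p).image fun i => T^[i] x

/-- The least absolute value of the elements of `Z`. -/
noncomputable def least (Z : Finset ℤ) : ℕ := sInf {n | ∃ x ∈ Z, x.natAbs = n}

/-- The parity word `x mod 2, T x mod 2, ..., T ^ (n-1) x mod 2` of length `n` of `x`. -/
def word (n : ℕ) (x : ℤ) : Fin n → ℤ := fun j => T^[(j : ℕ)] x % 2

/-- For all `C ≥ 1` and `δ > 0` there is `h > 0` such that all but finitely many cycles `Z` of the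
3x+1 map on the integers have the following property. If at least `δ |Z|` of the elements of `Z` have
absolute value at most `(|Z| m) ^ C`, where `m` is the least absolute value of the elements, then for
every `n ≥ 1` with `2 ^ n ≤ (|Z| m) ^ C` and every set `W` of at most `2 ^ (h n)` words of length `n` at
least `h |Z|` elements of `Z` have a parity word of length `n` which is not in `W`. -/
theorem result (C δ : ℝ) (hC : 1 ≤ C) (hδ : 0 < δ) : ∃ h : ℝ, 0 < h ∧
    {Z : Finset ℤ | IsCycle Z ∧
      δ * Z.card ≤ (Z.filter fun x : ℤ => |(x : ℝ)| ≤ ((Z.card : ℝ) * least Z) ^ C).card ∧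
      ¬ ∀ n : ℕ, 1 ≤ n → (2 : ℝ) ^ n ≤ ((Z.card : ℝ) * least Z) ^ C →
        ∀ W : Finset (Fin n → ℤ), (W.card : ℝ) ≤ 2 ^ (h * n) →
        h * Z.card ≤ (Z.filter fun x => word n x ∉ W).card}.Finite := by
  obtain ⟨h, hh, hfin⟩ := Pool.Agent.W5h23.positive_entropy C δ hC hδ
  refine ⟨h, hh, (hfin.union (Pool.Agent.W5h23.finite_small 0)).subset ?_⟩
  rintro Z ⟨hZ, hlow, hnot⟩
  by_cases h0 : (0 : ℤ) ∈ Z
  · right
    exact ⟨hZ, 0, h0, by simp⟩
  · left
    have hne : {n | ∃ x ∈ Z, x.natAbs = n}.Nonempty := by
      obtain ⟨x, hx, -⟩ := Pool.Agent.H547R3.IsCycle.normal hZ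
      exact ⟨_, x, hx, rfl⟩
    have hle : ∀ x ∈ Z, least Z ≤ x.natAbs := fun x hx => Nat.sInf_le ⟨x, hx, rfl⟩
    have hpos : 1 ≤ least Z := by
      obtain ⟨x, hx, hxe⟩ := Nat.sInf_mem hne
      have hx0 : x ≠ 0 := fun h => h0 (h ▸ hx)
      have h1 : x.natAbs = least Z := hxe
      rw [← h1]
      exact Int.natAbs_pos.2 hx0
    refine ⟨hZ, (least Z : ℝ), by exact_mod_cast hpos, ?_, hlow, fun h => hnot h.1⟩
    intro x hx
    have h1 := hle x hx
    have h2 : ((x.natAbs : ℕ) : ℝ) = |(x : ℝ)| := by
      rw [Nat.cast_natAbs]; push_cast; rfl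
    rw [← h2]
    exact_mod_cast h1

end Pool.Agent.Results.MP_edb5be_nt.PositiveEntropy
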