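import Mathlib
import Pool.Agent.W5h23.Robust3

set_option autoImplicit false

/-!
# Concentration of the elements of a cycle of the 3x+1 map in a window

If all but a small proportion of the elements of a cycle of the 3x+1 map on the integers lie in a window
`y ≤ |x| ≤ B y`, then the cycle has at most `C y ^ γ` elements, for every `γ > log_3 B - 1`, and the
least element is at most `C y ^ (14 γ)`. In particular, for `B < 3 ^ (15 / 14)`, in all but finitely many
cycles a positive proportion of the elements exceeds `B` times the least element. (The starting file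
`BoundedOscillation` has this only for cycles all elements of which lie in the window.)

Proof: along most of the orbit the parities are determined by the visits of the rotation by
`log 2 / log 3` to an interval of length `log_3 B - 1`; the exceptional times are coded separately. The
positions of the iterates remain under control when the orbit leaves the window, by the universal
bound for the sum of the reciprocals of the elements of a cycle.
-/

namespace Pool.Agent.Results.MP_edb5be_nt.RobustOscillation

/-- The 3x+1 map on the integers. -/
def T (x : ℤ) : ℤ := if x % 2 = 0 then x / 2 else (3 * x + 1) / 2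

/-- `Z` is a cycle of `T`. -/
def IsCycle (Z : Finset ℤ) : Prop :=
  ∃ (x : ℤ) (p : ℕ), 1 ≤ p ∧ T^[p] x = x ∧ Z = (Finset.range p).image fun i => T^[i] x

/-- The least absolute value of the elements of `Z`. -/
noncomputable def least (Z : Finset ℤ) : ℕ := sInf {n | ∃ x ∈ Z, x.natAbs = n}

/-- (1) Let `B ≥ 3` and `γ > log_3 B - 1`. There are `τ > 0` and `C` such that for every cycle `Z` of the
3x+1 map on the integers and every real `y ≥ 1`: if at most `τ |Z|` elements of `Z` do not satisfy
`y ≤ |x| ≤ B y`, then `|Z| ≤ C y ^ γ` and the least absolute value of the elements of `Z` is at most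
`C y ^ (14 γ)`.
(2) For every `B < 3 ^ (15 / 14) = 3.2448...` there is `τ > 0` such that in all but finitely many cycles
at least `τ |Z|` elements have absolute value greater than `B` times the least absolute value. -/
theorem result :
    (∀ B γ : ℝ, 3 ≤ B → Real.log B / Real.log 3 - 1 < γ →
      ∃ τ C : ℝ, 0 < τ ∧ ∀ Z : Finset ℤ, IsCycle Z → ∀ y : ℝ, 1 ≤ y →
        ((Z.filter fun x : ℤ => ¬ (y ≤ |(x : ℝ)| ∧ |(x : ℝ)| ≤ B * y)).card : ℝ) ≤ τ * Z.card →
        (Z.card : ℝ) ≤ C * y ^ γ ∧ (least Z : ℝ) ≤ C * y ^ (14 * γ)) ∧
    (∀ B : ℝ, B < 3 ^ (15 / 14 : ℝ) → ∃ τ : ℝ, 0 < τ ∧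
      {Z : Finset ℤ | IsCycle Z ∧
        ((Z.filter fun x : ℤ => B * least Z < |(x : ℝ)|).card : ℝ) < τ * Z.card}.Finite) :=
  ⟨fun B γ hB hγ => Pool.Agent.W5h23.window_least B γ hB hγ,
    fun B hB => Pool.Agent.W5h23.osc_robust B hB⟩

end Pool.Agent.Results.MP_edb5be_nt.RobustOscillation
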